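import Pool.Agent.H66.IP.TC

/-! # (SPF) the instance strings, the scales and the positions of the blocks (MP_0f8dca_lc) -/

set_option autoImplicit false

open Finset Pool.Agent.H6.NB Pool.Agent.H70.OQ Pool.Agent.H70.EH Pool.Agent.H70.EI Pool.Agent.H78.XQ
open Pool.Agent.H66.IP
open Pool.Agent.H75.OM (BPos)

namespace Pool.Agent.H16.IP

lemma scale_dm (V : ℕ → Local) (p : ℕ × List Bool) : scale (dm V p.1) p.1 p.2 = scl V p := by
  have h : scale (dm V p.1) p.1 p.2 = p.2.length + p.1 + 0 +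
      Nat.log 2 (2 ^ (p.2.length ^ (V p.1).c + (V p.1).c)) + 20 := rfl
  rw [h, Nat.log_pow (by norm_num), add_zero]
  rfl

lemma sp_eq (V : ℕ → Local) (p : ℕ × List Bool) : sp V p = ins (V p.1).c p.1 p.2 := by
  have h : sp V p = code p.2 (List.replicate p.1 true) (16 * scale (dm V p.1) p.1 p.2 ^ 3) := rfl
  rw [h, scale_dm]
  rfl

lemma sp_bds (hHMX : Pool.Agent.H70.EI.T_HMX) (V : ℕ → Local) (p : ℕ × List Bool) :
    20 ≤ scl V p ∧ 16 * scl V p ^ 3 ≤ (sp V p).length ∧
    (sp V p).length ≤ 16 * (scl V p + 1) ^ 3 := by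
  have h := hHMX.2.2 (dm V) (fun _ => 0) p
  have h1 : key (dm V) (fun _ => 0) (.inl p) = scl V p := scale_dm V p
  rw [h1] at h
  exact h

lemma true_head (s z : List Bool) (i : ℕ) (hs : s ≠ []) : ∃ w', code s z i = true :: w' := by
  cases s with
  | nil => exact absurd rfl hs
  | cons a s => exact ⟨_, rfl⟩

lemma bpos_code (V : ℕ → ATM) (p : ℕ × List Bool) (w : List Bool) (h : BPos V p w) :
    ∃ (z : List Bool) (i : ℕ), w = code (hm V p) z i := by
  rcases h with ⟨u, v, b, rfl⟩ | ⟨z, rfl⟩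
  · exact ⟨_, _, rfl⟩
  · exact ⟨_, _, rfl⟩

theorem pf_SPF (hHMX : Pool.Agent.H70.EI.T_HMX) (hCOD : Pool.Agent.H6.NB.T_COD) : T_SPF := by
  intro V
  have hlen : ∀ p, scl V p ≤ (sp V p).length := by
    intro p
    have h := (sp_bds hHMX V p).2.1
    have h1 : scl V p ≤ scl V p ^ 3 := Nat.le_self_pow (by norm_num) _
    omega
  refine ⟨sp_eq V, sp_bds hHMX V, ?_, ?_, ?_, ?_⟩
  · intro p
    obtain ⟨h1, h2, h3⟩ := sp_bds hHMX V p
    exact ⟨h1, h2, h3, rfl, rfl, rfl⟩
  · intro p w hw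
    obtain ⟨z, i, rfl⟩ := bpos_code (dm V) p w hw
    have h20 := (sp_bds hHMX V p).1
    have hl := hlen p
    refine ⟨?_, true_head _ _ _ ?_⟩
    · rw [hCOD.2]
      have : (sp V p).length = (hm (dm V) p).length := rfl
      omega
    · intro h0
      have : (sp V p).length = 0 := by
        have : sp V p = [] := h0
        rw [this]
        rfl
      omega
  · intro p p' w hw hw'
    obtain ⟨z, i, rfl⟩ := bpos_code (dm V) p w hw
    obtain ⟨z', i', h⟩ := bpos_code (dm V) p' _ hw'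
    exact hHMX.1 (dm V) p p' (hCOD.1 _ _ _ _ _ _ h).1
  · intro M
    refine ((Set.finite_Iic M).prod (List.finite_length_le Bool M)).subset ?_
    intro p hp
    have h1 := hlen p
    have h2 : (sp V p).length ≤ M := hp
    have h3 : p.2.length + p.1 ≤ scl V p := by
      unfold scl
      omega
    refine Set.mem_prod.2 ⟨?_, ?_⟩
    · show p.1 ≤ M
      omega
    · show p.2.length ≤ M
      omega

end Pool.Agent.H16.IP
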