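import Pool.Agent.H66.IP.TC
import Pool.Agent.H17.EI.BST
import Pool.Agent.H18.EI.LOA

/-! # (WST) the stage of a machine (MP_0f8dca_lc) -/

set_option autoImplicit false

open Finset Pool.Agent.H6.NB Pool.Agent.H70.OQ Pool.Agent.H70.EH Pool.Agent.H70.EI Pool.Agent.H78.XQ
open Pool.Agent.H66.IP
open Pool.Agent.H75.OM (BPos)

namespace Pool.Agent.H16.IP

lemma eval_congr (O O' : List Bool → Bool) (m : ℕ) (h : ∀ w : List Bool, w.length ≤ m → O w = O' w) :
    ∀ t : DT, t.Short m → t.eval O = t.eval O'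
  | .leaf b, _ => rfl
  | .node w l r, ht => by
    have h1 := h w ht.1
    have h2 := eval_congr O O' m h l ht.2.1
    have h3 := eval_congr O O' m h r ht.2.2
    show (if O w then r.eval O else l.eval O) = if O' w then r.eval O' else l.eval O'
    rw [h1, h2, h3]

lemma lang_congr {k : ℕ} (M : Machine k) (n : ℕ) (O O' : List Bool → Bool)
    (h : ∀ w : List Bool, w.length ≤ n ^ M.c + M.c → O w = O' w) :
    List.replicate n false ∈ M.lang O ↔ List.replicate n false ∈ M.lang O' := by
  have e3 : ∀ Q : List Bool → Bool, List.replicate n false ∈ M.lang Q ↔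
      Alt (fun w => w.length ≤ (List.replicate n false).length ^ M.c + M.c)
        true k fun ws => (M.tree (List.replicate n false) ws).eval Q = true := fun Q => Iff.rfl
  rw [e3 O, e3 O']
  refine Pool.Agent.H18.EI.alt_congr _ _ _ _ _ fun ws hl hws => ?_
  have h1 := M.short (List.replicate n false) ws hl hws
  rw [eval_congr O O' _ (fun w hw => h w ?_) _ h1]
  rw [List.length_replicate] at hw
  exact hw

lemma acz_one {k : ℕ} (M : Machine k) (n : ℕ) (O : List Bool → Bool)
    (h : List.replicate n false ∈ M.lang O) : acz M n O = 1 := by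
  classical
  unfold acz bi
  exact if_pos (decide_eq_true h)

lemma acz_zero {k : ℕ} (M : Machine k) (n : ℕ) (O : List Bool → Bool)
    (h : List.replicate n false ∉ M.lang O) : acz M n O = 0 := by
  classical
  unfold acz bi
  exact if_neg (fun e => h (of_decide_eq_true e))

lemma acz_bd {k : ℕ} (M : Machine k) (n : ℕ) (O : List Bool → Bool) :
    0 ≤ acz M n O ∧ acz M n O ≤ 1 := by
  by_cases h : List.replicate n false ∈ M.lang O
  · rw [acz_one M n O h]
    norm_num
  · rw [acz_zero M n O h]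
    norm_num

lemma acz_congr {k : ℕ} (M : Machine k) (n : ℕ) (O O' : List Bool → Bool)
    (h : ∀ w : List Bool, w.length ≤ n ^ M.c + M.c → O w = O' w) : acz M n O = acz M n O' := by
  have h1 := lang_congr M n O O' h
  by_cases h2 : List.replicate n false ∈ M.lang O
  · rw [acz_one M n O h2, acz_one M n O' (h1.1 h2)]
  · rw [acz_zero M n O h2, acz_zero M n O' (fun e => h2 (h1.2 e))]

theorem pf_WST (hLOW : T_LOW) (hSTJ : Pool.Agent.H66.IP.T_STJ) (hWFL : T_WFL) (hWGP : T_WGP) (hSPF : T_SPF)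
    (hPLT : T_PLT) : T_WST := by
  intro V k F M O hgood
  obtain ⟨n₀, hn₀⟩ := hWFL V (k + 1) F
  obtain ⟨n₁, hn₁⟩ := hWGP k F
  obtain ⟨n, hn⟩ : ∃ n, n = n₀ + n₁ + M + 20 := ⟨_, rfl⟩
  have hcube : n + 1 ≤ (n + 1) ^ 3 := Nat.le_self_pow (by norm_num) _
  obtain ⟨q, hq⟩ : ∃ q, q = 16 * (n + 1) ^ 3 := ⟨_, rfl⟩
  have hMq : M < q := by omega
  obtain ⟨O₁, hO₁⟩ := hLOW V M q O hMq hgood
  obtain ⟨M₂, hM₂⟩ : ∃ M₂, M₂ = q + 1 + (n ^ F.c + F.c) + 2 ^ (k + 1 + 1) * n + 1 := ⟨_, rfl⟩
  have hne : Nonempty (Hid (Fin n → Bool) (Ys n) (k + 1)) := Pool.Agent.H17.EI.hid_ne n (k + 1)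
  obtain ⟨O', z, b, hg, hout, htab, hbt, hbf⟩ := hSTJ V n (k + 1) M₂ O₁ (acz F n)
    (Hid (Fin n → Bool) (Ys n) (k + 1) × (Fin n → Bool))
    (fun z => tabU (k + 1) z.1 z.2) (fun z => tabT (k + 1) z.1) (by omega) (by rw [← hq]; omega)
    (fun p hp => hO₁.good p (by rw [← hq] at hp; exact hp))
    (fun O O' h => acz_congr F n O O' fun w hw => h w (by omega)) (acz_bd F n)
    (hn₀ n (by omega)) (hn₁ n (by omega))
  rw [← hq] at hout
  refine ⟨M₂, O', ⟨by omega, ?_, hg⟩, ?_⟩
  · intro w hw
    rw [← hO₁.eq w hw]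
    refine hout w ?_ ?_
    · intro x hx
      rcases hw with hw | ⟨p, hp, hpw⟩
      · have h1 := (hPLT.2.1 (k + 1) n x).1
        rw [hx, List.length_cons] at hw
        omega
      · obtain ⟨-, w', hw'⟩ := (hSPF V).2.2.2.1 p w hpw
        rw [hx] at hw'
        simp at hw'
    · intro p' hp' hpw'
      rcases hw with hw | ⟨p, hp, hpw⟩
      · have h1 := ((hSPF V).2.2.2.1 p' w hpw').1
        omega
      · have h1 := (hSPF V).2.2.2.2.1 p p' w hpw hpw'
        rw [h1] at hp
        omega
  · intro O'' hO'' heq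
    have h1 : acz F n O'' = acz F n O' := acz_congr F n O'' O' fun w hw => hO'' w (by omega)
    have h2 : List.replicate n false ∈ plang (k + 1) O'' ↔
        List.replicate n false ∈ plang (k + 1) O' :=
      hPLT.2.2.2 (k + 1) n O'' O' fun w hw => hO'' w (by omega)
    rw [← h1] at hbt hbf
    cases b with
    | true =>
      have h3 := hbt rfl
      have h4 : List.replicate n false ∈ plang (k + 1) O' :=
        (hPLT.1 (k + 1) n O' z.1).2 z.2 fun p => by rw [htab p, if_pos rfl]
      have h5 : List.replicate n false ∈ F.lang O'' := by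
        rw [heq]
        exact h2.2 h4
      rw [acz_one F n O'' h5] at h3
      norm_num at h3
    | false =>
      have h3 := hbf rfl
      have h4 : List.replicate n false ∉ plang (k + 1) O' :=
        (hPLT.1 (k + 1) n O' z.1).1 fun p => by rw [htab p, if_neg (by simp)]
      have h5 : List.replicate n false ∉ F.lang O'' := by
        rw [heq]
        exact fun e => h4 (h2.1 e)
      rw [acz_zero F n O'' h5] at h3
      norm_num at h3

end Pool.Agent.H16.IP
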